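import Pool.Agent.helper56.NZ.Spec

set_option autoImplicit false

open Complex Metric Set Filter Topology MeasureTheory
open Pool.Agent.helper98.ILF Pool.Agent.helper16.Multibrot
open HY (UD T S hd UN RM VV SG Orb fz)

noncomputable section

namespace NZ

theorem HDV (hMOB : HY.MOB_stmt) (hHDI : HY.HDI_stmt) (hKO3 : V3.KO3_stmt) : HDV_stmt := by
  intro η hη0 hη1
  obtain ⟨C, hC1, hC⟩ := hKO3 (η / 2) (by linarith) (by linarith)
  have hC0 : 0 < C := by linarith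
  refine ⟨η / C, by positivity, ?_, ?_⟩
  · rw [div_le_one hC0]; linarith
  intro H v hH hv
  have hv1 : ‖v‖ < 1 := by linarith
  have hvU : v ∈ UD := by
    show v ∈ ball (0 : ℂ) 1
    rw [mem_ball_zero_iff]; exact hv1
  have h0U : (0 : ℂ) ∈ UD := by
    show (0 : ℂ) ∈ ball (0 : ℂ) 1
    rw [mem_ball_zero_iff, norm_zero]; exact one_pos
  have hUo : IsOpen UD := isOpen_ball
  obtain ⟨m1, -, m3, -, m5, -, m7, -, -, -, m11, -⟩ := hMOB v hvU
  have hSmaps : MapsTo (S v) UD UD := fun x hx => (m1 x hx).2.1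
  have hJ : UN (fun x => H (S v x)) :=
    ⟨hH.dif.comp m5 hSmaps, hH.inj.comp m7 hSmaps, fun x hx => hH.map (hSmaps hx)⟩
  refine ⟨hJ, by rw [m3], ?_⟩
  have hH0 : H 0 ∈ UD := hH.map h0U
  obtain ⟨n1, n2, -, n4, -, n6, -, -, -, -, -, -⟩ := hMOB (H 0) hH0
  have hTmaps : MapsTo (T (H 0)) UD UD := fun x hx => (n1 x hx).1
  set G : ℂ → ℂ := fun x => T (H 0) (H x) with hG
  have hGdif : DifferentiableOn ℂ G UD := n4.comp hH.dif hH.map
  have hGinj : InjOn G UD := n6.comp hH.inj hH.map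
  have hGmap : MapsTo G UD UD := fun x hx => hTmaps (hH.map hx)
  have hk := (hC G 0 1 one_pos hGdif hGinj).2 v (by
    rw [mem_ball_zero_iff]; linarith)
  have hder : ‖deriv G 0‖ ≤ C * ‖deriv G v‖ := hk.2.1
  have e1 : hd G 0 = hd H 0 :=
    (hHDI.1 (H 0) H 0 hH0 (hH.dif.differentiableAt (hUo.mem_nhds h0U)) hH0).1
  have e2 : hd G 0 = ‖deriv G 0‖ := by
    unfold hd
    have : G 0 = 0 := n2
    rw [this]; simp
  have e3 : hd (fun z => T (H 0) (H (S v z))) 0 = hd (fun x => H (S v x)) 0 :=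
    (hHDI.1 (H 0) (fun x => H (S v x)) 0 hH0 (hJ.dif.differentiableAt (hUo.mem_nhds h0U))
      (hJ.map h0U)).1
  have e4 : deriv (fun z => T (H 0) (H (S v z))) 0 = deriv G v * (1 - (‖v‖ : ℂ) ^ 2) := by
    have a1 : DifferentiableAt ℂ G (S v 0) := by
      rw [m3]; exact hGdif.differentiableAt (hUo.mem_nhds hvU)
    have a2 : DifferentiableAt ℂ (S v) 0 := m5.differentiableAt (hUo.mem_nhds h0U)
    have a3 := deriv_comp (h₂ := G) (h := S v) (0 : ℂ) a1 a2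
    rw [m3, m11] at a3
    exact a3
  have hnv : 0 ≤ ‖v‖ := norm_nonneg v
  have e5 : ‖deriv (fun z => T (H 0) (H (S v z))) 0‖ = ‖deriv G v‖ * (1 - ‖v‖ ^ 2) := by
    rw [e4, norm_mul]
    congr 1
    have h1 : (1 - (‖v‖ : ℂ) ^ 2) = ((1 - ‖v‖ ^ 2 : ℝ) : ℂ) := by push_cast; ring
    rw [h1, Complex.norm_real, Real.norm_of_nonneg]
    nlinarith
  have hη2 : η ≤ 1 - ‖v‖ ^ 2 := by nlinarith
  rw [← e3, ← e1, e2]
  have hval : T (H 0) (H (S v 0)) ∈ UD := hTmaps (hH.map (hSmaps h0U))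
  have hval' : ‖T (H 0) (H (S v 0))‖ < 1 := by
    have : T (H 0) (H (S v 0)) ∈ ball (0 : ℂ) 1 := hval
    rwa [mem_ball_zero_iff] at this
  have hden0 : 0 < 1 - ‖T (H 0) (H (S v 0))‖ ^ 2 := by
    nlinarith [norm_nonneg (T (H 0) (H (S v 0)))]
  have hden1 : 1 - ‖T (H 0) (H (S v 0))‖ ^ 2 ≤ 1 := by
    nlinarith [norm_nonneg (T (H 0) (H (S v 0)))]
  unfold hd
  rw [le_div_iff₀ hden0]
  have h1 : η / C * ‖deriv G 0‖ ≤ ‖deriv G v‖ * (1 - ‖v‖ ^ 2) := by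
    rw [div_mul_eq_mul_div, div_le_iff₀ hC0]
    have := norm_nonneg (deriv G v)
    have h2 : η * ‖deriv G 0‖ ≤ η * (C * ‖deriv G v‖) := by gcongr
    have h3 : η * (C * ‖deriv G v‖) ≤ (1 - ‖v‖ ^ 2) * (C * ‖deriv G v‖) :=
      mul_le_mul_of_nonneg_right hη2 (by positivity)
    linarith
  have h4 : 0 ≤ η / C * ‖deriv G 0‖ := by positivity
  calc η / C * ‖deriv G 0‖ * (1 - ‖T (H 0) (H (S v 0))‖ ^ 2)
      ≤ η / C * ‖deriv G 0‖ * 1 := mul_le_mul_of_nonneg_left hden1 h4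
    _ = η / C * ‖deriv G 0‖ := mul_one _
    _ ≤ ‖deriv G v‖ * (1 - ‖v‖ ^ 2) := h1
    _ = ‖deriv (fun z => T (H 0) (H (S v z))) 0‖ := e5.symm

end NZ
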